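import Pool.Agent.N869.GK.StmM

/-!
# Project GK, variant M: the value for the stable sets, several curves
-/

set_option autoImplicit false

open scoped Classical

namespace Pool.Agent.N478.GK

open Finset
open Pool.Agent.N869.GK

theorem t_VALM : Pool.Agent.N869.GK.M.S_VALM := by
  intro hUNL hFAM hAUTO hTOR hKC hVAL hFACTM hPRODM r C _ D₀ D hOk R ι _ _ κ lab N hyp Z hZ hSt
  obtain ⟨Y, hY, hZY⟩ := (hPRODM hUNL hFAM ι C κ Z).1 ⟨hZ, hSt⟩
  obtain ⟨hF, -⟩ := hFACTM r R C ι (fun x => D (κ x)) (fun _ => univ) κ lab N Y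
    (fun a => (hY a).1)
  have h1 : M.One (fun x => D (κ x)) lab N Z = ∏ a, M.One (fun x : {x // κ x = a} => D (κ x.1))
      (fun i : {i // i ∈ (univ : Finset R)} => lab i.1) (fun i j => N i.1 j.1)
        (rd κ a (Y a)) := by
    rw [← hF]
    unfold M.One
    rw [hZY]
    simp only [mem_univ]
  have hyp' : ∀ a, Hyp1 (D a) (fun i : {i // i ∈ (univ : Finset R)} => lab i.1)
      (fun i j => N i.1 j.1) univ := by
    intro a
    refine ⟨fun π => ?_, ?_, fun i _ j _ hij => ?_⟩
    · obtain ⟨i, hi, h⟩ := hyp.all π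
      exact ⟨⟨i, hi⟩, mem_univ _, h⟩
    · rw [← hyp.par]
      exact Finset.sum_coe_sort (univ : Finset R) lab
    · rw [hOk.em a]
      exact hyp.recip i.1 (mem_univ _) j.1 (mem_univ _) (fun h => hij (Subtype.ext h))
  have h2 : ∀ a, M.One (fun x : {x // κ x = a} => D (κ x.1))
      (fun i : {i // i ∈ (univ : Finset R)} => lab i.1) (fun i j => N i.1 j.1)
        (rd κ a (Y a)) = 4 ^ (Fintype.card {x // κ x = a} * Fintype.card R) := by
    intro a
    have e1 : (fun x : {x // κ x = a} => D (κ x.1)) = fun _ => D a := by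
      funext x
      rw [x.2]
    rw [e1]
    have h3 := hVAL hUNL hAUTO hTOR hKC r (D a) (hOk.ok a) {i // i ∈ (univ : Finset R)}
      {x // κ x = a} (fun i : {i // i ∈ (univ : Finset R)} => lab i.1) (fun i j => N i.1 j.1)
      (hyp' a) (rd κ a (Y a)) (hY a).2.1 (hY a).2.2
    have e2 : Fintype.card {i // i ∈ (univ : Finset R)} = Fintype.card R := by
      rw [Fintype.card_coe, card_univ]
    rw [e2] at h3
    exact h3
  rw [h1, Finset.prod_congr rfl fun a _ => h2 a, Finset.prod_pow_eq_pow_sum, ← Finset.sum_mul]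
  congr 2
  rw [← Fintype.card_sigma]
  exact Fintype.card_congr (Equiv.sigmaFiberEquiv κ)

end Pool.Agent.N478.GK
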